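import Pool.Agent.N273.PP.FinA

/-!
PP-FIN (project PP of helper874): the curve `y ^ 2 = x ^ 3 + A x + B` over `k(t)`, `k` finite of
characteristic different from 2 and 3; if each point is twice a point then there are only finitely
many points.
-/

set_option autoImplicit false
set_option linter.all false

namespace Pool.Agent.N273.PP

open Polynomial WeierstrassCurve WeierstrassCurve.Affine Pool.Agent.TH115.GD Pool.Agent.Y164.PS
open Pool.Agent.N874.PP
open scoped Classical

section pts

variable {K : Type} [Field K] {A B : K}

theorem sW_eq {x y : K} (h : ((sW A B).baseChange K).toAffine.Nonsingular x y) :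
    y ^ 2 = x ^ 3 + A * x + B := by
  have he := (WeierstrassCurve.Affine.equation_iff _ _).1 h.1
  have a1 : ((sW A B).baseChange K).toAffine.a₁ = 0 := map_zero _
  have a2 : ((sW A B).baseChange K).toAffine.a₂ = 0 := map_zero _
  have a3 : ((sW A B).baseChange K).toAffine.a₃ = 0 := map_zero _
  have a4 : ((sW A B).baseChange K).toAffine.a₄ = A := rfl
  have a6 : ((sW A B).baseChange K).toAffine.a₆ = B := rfl
  rw [a1, a2, a3, a4, a6] at he
  linear_combination he

theorem sW_negY (x y : K) : ((sW A B).baseChange K).toAffine.negY x y = -y := by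
  have a1 : ((sW A B).baseChange K).toAffine.a₁ = 0 := map_zero _
  have a3 : ((sW A B).baseChange K).toAffine.a₃ = 0 := map_zero _
  rw [WeierstrassCurve.Affine.negY, a1, a3]
  ring

theorem sW_dbl0 {x y : K} (h : ((sW A B).baseChange K).toAffine.Nonsingular x y) (hy : y = 0) :
    (Point.some x y h : Pt (sW A B) K) + Point.some x y h = 0 := by
  apply Point.add_self_of_Y_eq
  rw [sW_negY, hy, neg_zero]

theorem sW_dbl (h2 : (2 : K) ≠ 0) {x y : K}
    (h : ((sW A B).baseChange K).toAffine.Nonsingular x y) (hy : y ≠ 0) :
    ∃ x' y' h', (Point.some x y h : Pt (sW A B) K) + Point.some x y h = Point.some x' y' h' ∧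
      x' = (x ^ 4 - 2 * A * x ^ 2 - 8 * B * x + A ^ 2) / (4 * (x ^ 3 + A * x + B)) := by
  have hne : y ≠ ((sW A B).baseChange K).toAffine.negY x y := by
    rw [sW_negY]
    intro h3
    apply hy
    have : 2 * y = 0 := by linear_combination h3
    exact (mul_eq_zero.1 this).resolve_left h2
  have a1 : ((sW A B).baseChange K).toAffine.a₁ = 0 := map_zero _
  have a2 : ((sW A B).baseChange K).toAffine.a₂ = 0 := map_zero _
  have a4 : ((sW A B).baseChange K).toAffine.a₄ = A := rfl
  refine ⟨_, _, _, Point.add_self_of_Y_ne hne, ?_⟩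
  rw [WeierstrassCurve.Affine.addX, slope_of_Y_ne rfl hne, sW_negY, a1, a2, a4]
  have he := sW_eq h
  rw [← he]
  have h4 : (4 : K) ≠ 0 := by
    have : (4 : K) = 2 * 2 := by norm_num
    rw [this]
    exact mul_ne_zero h2 h2
  have e1 : y - -y = 2 * y := by ring
  rw [e1]
  field_simp
  have he' : B = y ^ 2 - x ^ 3 - A * x := by linear_combination -he
  rw [he']
  ring

end pts

variable {k K : Type} [Field k] [Field K] [Algebra k[X] K] [IsFractionRing k[X] K]

/-- the height of a point -/
noncomputable def hw {A B : K} (k : Type) [Field k] [Algebra k[X] K] [IsFractionRing k[X] K] :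
    Pt (sW A B) K → ℕ
  | .zero => 0
  | .some x _ _ => ht k x

theorem s_fin : Pool.Agent.N874.PP.S_FIN := by
  intro k K _ _ _ _ _ A B h6 hD hdiv
  have inj := IsFractionRing.injective k[X] K
  have h2 : (2 : k) ≠ 0 := by
    intro h
    apply h6
    have : (6 : k) = 2 * 3 := by norm_num
    rw [this, h, zero_mul]
  have h2K : (2 : K) ≠ 0 := by
    have : algebraMap k[X] K (C 2) = 2 := by rw [C_ofNat]; exact map_ofNat _ _
    rw [← this]
    simpa using h2
  set a : K := algebraMap k[X] K A with ha
  set b : K := algebraMap k[X] K B with hb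
  -- the zeros of the cubic polynomial
  obtain ⟨c0, hc0⟩ : ∃ c0 : ℕ, ∀ x : K, x ^ 3 + a * x + b = 0 → ht k x ≤ c0 := by
    have hp : (X ^ 3 + C a * X + C b : K[X]) ≠ 0 := by
      intro h0
      have := congrArg (fun p : K[X] => p.coeff 3) h0
      simp [coeff_X, coeff_C] at this
    refine ⟨(X ^ 3 + C a * X + C b : K[X]).roots.toFinset.sup (ht k), fun x hx => ?_⟩
    apply Finset.le_sup (f := ht k)
    rw [Multiset.mem_toFinset, mem_roots hp, IsRoot.def]
    simpa using hx
  set C := 10 * (A.natDegree + B.natDegree) + 4 * c0 with hC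
  have dbl : ∀ R : Pt (sW a b) K, 4 * hw k R ≤ hw k (R + R) + C ∧ hw k (R + R) ≤ 4 * hw k R + C := by
    intro R
    rcases R with _ | ⟨x, y, hxy⟩
    · have e : (Point.zero : Pt (sW a b) K) + Point.zero = Point.zero := add_zero (0 : Pt (sW a b) K)
      rw [e]
      exact ⟨Nat.zero_le _, Nat.zero_le _⟩
    · by_cases hy : y = 0
      · rw [sW_dbl0 hxy hy]
        have he := sW_eq hxy
        rw [hy] at he
        have h3 := hc0 x (by rw [← he]; ring)
        refine ⟨?_, Nat.zero_le _⟩
        show 4 * ht k x ≤ 0 + C
        omega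
      · obtain ⟨x', y', h', e1, e2⟩ := sW_dbl h2K hxy hy
        rw [e1]
        show 4 * ht k x ≤ ht k x' + C ∧ ht k x' ≤ 4 * ht k x + C
        have h3 := ht_dup (k := k) (K := K) h2 hD x (by
          rw [← ha, ← hb, ← sW_eq hxy]; exact pow_ne_zero _ hy)
        rw [← ha, ← hb, ← e2] at h3
        exact ⟨h3.1.trans (by omega), h3.2.trans (by omega)⟩
  apply fin_of_height (hw k) C _ (fun R => (dbl R).1) (fun R => (dbl R).2)
  · intro Q
    obtain ⟨R, hR⟩ := hdiv Q
    refine ⟨R, ?_⟩
    rw [hR, two_nsmul]
  · -- finiteness
    have hfx := ht_fin (k := k) (K := K) C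
    apply Set.Finite.of_finite_fibers
      (fun P : Pt (sW a b) K =>
        (match P with | .zero => none | .some x _ _ => some x : Option K))
    · apply ((hfx.image some).union (Set.finite_singleton none)).subset
      rintro o ⟨P, hP, rfl⟩
      rcases P with _ | ⟨x, y, hxy⟩
      · right; rfl
      · left; exact ⟨x, hP, rfl⟩
    · intro o ho
      rcases o with _ | x
      · apply (Set.finite_singleton (0 : Pt (sW a b) K)).subset
        rintro P ⟨-, hP⟩
        rcases P with _ | ⟨x, y, hxy⟩
        · rfl
        · cases hP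
      · have hroots : {y : K | y ^ 2 = x ^ 3 + a * x + b}.Finite := by
          set c := x ^ 3 + a * x + b with hc
          by_cases hy : ∃ y0 : K, y0 ^ 2 = c
          · obtain ⟨y0, hy0⟩ := hy
            apply (Set.toFinite ({y0, -y0} : Set K)).subset
            intro y hy
            have : y ^ 2 = y0 ^ 2 := by rw [hy0]; exact hy
            rcases sq_eq_sq_iff_eq_or_eq_neg.1 this with h | h
            · left; exact h
            · right; exact h
          · apply Set.finite_empty.subset
            intro y hy'
            exact hy ⟨y, hy'⟩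
        apply Set.Finite.of_finite_image (f := fun P : Pt (sW a b) K =>
          (match P with | .zero => 0 | .some _ y _ => y : K))
        · apply hroots.subset
          rintro y ⟨P, ⟨-, hP⟩, rfl⟩
          rcases P with _ | ⟨x', y, hxy⟩
          · cases hP
          · have hx' : x' = x := Option.some.inj hP
            subst hx'
            exact sW_eq hxy
        · rintro P ⟨-, hP⟩ P' ⟨-, hP'⟩ hyy
          rcases P with _ | ⟨x1, y1, hxy1⟩
          · cases hP
          · rcases P' with _ | ⟨x2, y2, hxy2⟩
            · cases hP'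
            · have e1 : x1 = x := Option.some.inj hP
              have e2 : x2 = x := Option.some.inj hP'
              have e3 : y1 = y2 := hyy
              subst e1 e3
              subst e2
              rfl

end Pool.Agent.N273.PP
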