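import Pool.Agent.N874.PP.Gal
import Pool.Agent.Y164.PS.Ht

/-!
PP-FIN (project PP of helper874), part A: the height of the duplication map of
`y ^ 2 = x ^ 3 + A x + B` over `k(t)`.
-/

set_option autoImplicit false
set_option linter.all false

namespace Pool.Agent.N273.PP

open Polynomial WeierstrassCurve WeierstrassCurve.Affine Pool.Agent.TH115.GD Pool.Agent.Y164.PS

variable {k K : Type} [Field k] [Field K] [Algebra k[X] K] [IsFractionRing k[X] K]

/-- the height of the duplication map -/
theorem ht_dup {A B : k[X]} (h2 : (2 : k) ≠ 0) (hD : 4 * A ^ 3 + 27 * B ^ 2 ≠ 0) (x : K)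
    (hx : x ^ 3 + algebraMap k[X] K A * x + algebraMap k[X] K B ≠ 0) :
    4 * ht k x ≤ ht k ((x ^ 4 - 2 * algebraMap k[X] K A * x ^ 2 - 8 * algebraMap k[X] K B * x +
      algebraMap k[X] K A ^ 2) /
      (4 * (x ^ 3 + algebraMap k[X] K A * x + algebraMap k[X] K B))) +
      10 * (A.natDegree + B.natDegree) ∧
    ht k ((x ^ 4 - 2 * algebraMap k[X] K A * x ^ 2 - 8 * algebraMap k[X] K B * x +
      algebraMap k[X] K A ^ 2) /
      (4 * (x ^ 3 + algebraMap k[X] K A * x + algebraMap k[X] K B))) ≤
      4 * ht k x + 10 * (A.natDegree + B.natDegree) := by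
  obtain ⟨u, v, hv0, hrel, hxuv, hht⟩ : ∃ u v : k[X], v ≠ 0 ∧ IsRelPrime u v ∧
      algebraMap k[X] K u / algebraMap k[X] K v = x ∧ ht k x = max u.natDegree v.natDegree :=
    ⟨IsFractionRing.num k[X] x, (IsFractionRing.den k[X] x : k[X]),
      nonZeroDivisors.coe_ne_zero _, IsFractionRing.num_den_reduced k[X] x,
      IsFractionRing.mk'_num_den' k[X] x, rfl⟩
  have inj := IsFractionRing.injective k[X] K
  have hvK : algebraMap k[X] K v ≠ 0 := by simpa using hv0
  have h4 : (4 : k) ≠ 0 := by
    have : (4 : k) = 2 * 2 := by norm_num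
    rw [this]
    exact mul_ne_zero h2 h2
  have h4X : (C (4 : k)) ≠ 0 := by rwa [Ne, C_eq_zero]
  obtain ⟨F, hF⟩ : ∃ F : k[X], F = u ^ 4 - C 2 * A * (u ^ 2 * v ^ 2) - C 8 * B * (u * v ^ 3) +
    A ^ 2 * v ^ 4 := ⟨_, rfl⟩
  obtain ⟨G, hG⟩ : ∃ G : k[X], G = v * (u ^ 3 + A * (u * v ^ 2) + B * v ^ 3) := ⟨_, rfl⟩
  have e4 : algebraMap k[X] K (C (4 : k)) = 4 := by
    have : (C (4 : k)) = (4 : k[X]) := C_ofNat 4
    rw [this]
    exact map_ofNat _ _
  have e2 : algebraMap k[X] K (C (2 : k)) = 2 := by
    have : (C (2 : k)) = (2 : k[X]) := C_ofNat 2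
    rw [this]
    exact map_ofNat _ _
  have e8 : algebraMap k[X] K (C (8 : k)) = 8 := by
    have : (C (8 : k)) = (8 : k[X]) := C_ofNat 8
    rw [this]
    exact map_ofNat _ _
  have hxK : x ^ 3 + algebraMap k[X] K A * x + algebraMap k[X] K B =
      algebraMap k[X] K G / (algebraMap k[X] K v) ^ 4 := by
    rw [hG, map_mul, map_add, map_add, map_mul, map_mul, map_mul, map_pow, map_pow, map_pow,
      ← hxuv]
    field_simp
  have hG0 : G ≠ 0 := by
    intro h0
    apply hx
    rw [hxK, h0, map_zero, zero_div]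
  have hq : C (4 : k) * G ≠ 0 := mul_ne_zero h4X hG0
  have hGK : algebraMap k[X] K G ≠ 0 := by simpa using hG0
  have hval : (x ^ 4 - 2 * algebraMap k[X] K A * x ^ 2 - 8 * algebraMap k[X] K B * x +
      algebraMap k[X] K A ^ 2) /
      (4 * (x ^ 3 + algebraMap k[X] K A * x + algebraMap k[X] K B)) =
      algebraMap k[X] K F / algebraMap k[X] K (C (4 : k) * G) := by
    have h4K : (4 : K) ≠ 0 := by
      rw [← e4]
      simpa using h4X
    have e5 : algebraMap k[X] K (C (4 : k) * G) = 4 * algebraMap k[X] K G := by rw [map_mul, e4]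
    rw [hxK, e5, hF]
    simp only [map_add, map_sub, map_mul, map_pow, e2, e8]
    rw [← hxuv]
    field_simp
  rw [hval]
  obtain ⟨g, g1, g2, g3, g4, g5⟩ := ht_quot (k := k) (K := K) (p := F) (q := C (4 : k) * G) hq
  have hdG : (C (4 : k) * G).natDegree = G.natDegree := natDegree_C_mul h4
  rw [hdG] at g4 g5
  rw [hht]
  set h := max u.natDegree v.natDegree with hh
  have du : u.natDegree ≤ h := le_max_left _ _
  have dv : v.natDegree ≤ h := le_max_right _ _
  set c := A.natDegree + B.natDegree with hc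
  have dA : A.natDegree ≤ c := by omega
  have dB : B.natDegree ≤ c := by omega
  obtain ⟨D, hDD⟩ : ∃ D : k[X], D = 4 * A ^ 3 + 27 * B ^ 2 := ⟨_, rfl⟩
  rw [← hDD] at hD
  have dD : D.natDegree ≤ 3 * c := by
    rw [hDD, ← C_ofNat 4, ← C_ofNat 27]
    exact dad ((dm (dnum _) (dpw 3 dA)).trans (by omega)) ((dm (dnum _) (dpw 2 dB)).trans (by omega))
  constructor
  · -- the lower bound
    have hgG : g ∣ G := by
      have hun : IsUnit (C (4 : k)) := isUnit_C.2 (isUnit_iff_ne_zero.2 h4)
      exact (hun.dvd_mul_left).1 g2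
    have id1 : C 4 * (D * v ^ 7) =
        (C 12 * (u ^ 2 * v) + C 16 * (A * v ^ 3)) * F +
        (C 20 * (A * (u * v ^ 2)) + C 108 * (B * v ^ 3) - C 12 * u ^ 3) * G := by
      rw [hF, hG, hDD]
      simp only [C_ofNat]
      ring
    have id2 : C 4 * (D * u ^ 7) =
        (C 4 * (D * u ^ 3) - C 4 * (A ^ 2 * B * (u ^ 2 * v)) +
          C 4 * (A * (C 3 * A ^ 3 + C 22 * B ^ 2) * (u * v ^ 2)) +
          C 12 * (B * (A ^ 3 + C 8 * B ^ 2) * v ^ 3)) * F +
        C 4 * ((A ^ 2 * B * u ^ 3) + A * (C 5 * A ^ 3 + C 32 * B ^ 2) * (u ^ 2 * v) +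
          C 2 * (B * (C 13 * A ^ 3 + C 96 * B ^ 2) * (u * v ^ 2)) -
          C 3 * (A ^ 2 * (A ^ 3 + C 8 * B ^ 2) * v ^ 3)) * G := by
      rw [hF, hG, hDD]
      simp only [C_ofNat]
      ring
    have hun4 : IsUnit (C (4 : k)) := isUnit_C.2 (isUnit_iff_ne_zero.2 h4)
    have r1 : g ∣ D * v ^ 7 := by
      have : g ∣ C 4 * (D * v ^ 7) := by
        rw [id1]; exact dvd_add (g1.mul_left _) (hgG.mul_left _)
      exact (hun4.dvd_mul_left).1 this
    have r2 : g ∣ D * u ^ 7 := by
      have : g ∣ C 4 * (D * u ^ 7) := by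
        rw [id2]; exact dvd_add (g1.mul_left _) (hgG.mul_left _)
      exact (hun4.dvd_mul_left).1 this
    have hcop : IsCoprime (u ^ 7) (v ^ 7) := (hrel.isCoprime).pow
    have r3 : g ∣ D := by
      obtain ⟨s, t, hst⟩ := hcop
      have h3 : D = s * (D * u ^ 7) + t * (D * v ^ 7) := by
        linear_combination -D * hst
      rw [h3]
      exact dvd_add (r2.mul_left _) (r1.mul_left _)
    have dg : g.natDegree ≤ 3 * c := (natDegree_le_of_dvd r3 hD).trans dD
    set M := max F.natDegree G.natDegree with hM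
    have dF : F.natDegree ≤ M := le_max_left _ _
    have dG : G.natDegree ≤ M := le_max_right _ _
    have hu7 : 7 * u.natDegree ≤ 3 * h + 5 * c + M := by
      by_cases hu0 : u = 0
      · rw [hu0, natDegree_zero]; omega
      · have h3 : (C 4 * (D * u ^ 7)).natDegree = D.natDegree + 7 * u.natDegree := by
          rw [natDegree_C_mul h4, natDegree_mul hD (pow_ne_zero _ hu0), natDegree_pow]
        have h5 : (C 4 * (D * u ^ 7)).natDegree ≤ 3 * h + 5 * c + M := by
          rw [id2]
          apply dad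
          · have p1 : (C 4 * (D * u ^ 3) - C 4 * (A ^ 2 * B * (u ^ 2 * v)) +
              C 4 * (A * (C 3 * A ^ 3 + C 22 * B ^ 2) * (u * v ^ 2)) +
              C 12 * (B * (A ^ 3 + C 8 * B ^ 2) * v ^ 3)).natDegree ≤ 3 * h + 5 * c := by
              apply dad
              · apply dad
                · apply dsb
                  · exact (dm (dnum _) (dm dD (dpw 3 du))).trans (by omega)
                  · exact (dm (dnum _) (dm (dm (dpw 2 dA) dB) (dm (dpw 2 du) dv))).trans (by omega)
                · have q1 : (C 3 * A ^ 3 + C 22 * B ^ 2).natDegree ≤ 3 * c :=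
                    dad ((dm (dnum _) (dpw 3 dA)).trans (by omega))
                      ((dm (dnum _) (dpw 2 dB)).trans (by omega))
                  exact (dm (dnum _) (dm (dm dA q1) (dm du (dpw 2 dv)))).trans (by omega)
              · have q1 : (A ^ 3 + C 8 * B ^ 2).natDegree ≤ 3 * c :=
                  dad (dpw 3 dA) ((dm (dnum _) (dpw 2 dB)).trans (by omega))
                exact (dm (dnum _) (dm (dm dB q1) (dpw 3 dv))).trans (by omega)
            exact (dm p1 dF).trans (by omega)
          · have p1 : (C 4 * ((A ^ 2 * B * u ^ 3) + A * (C 5 * A ^ 3 + C 32 * B ^ 2) * (u ^ 2 * v) +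
              C 2 * (B * (C 13 * A ^ 3 + C 96 * B ^ 2) * (u * v ^ 2)) -
              C 3 * (A ^ 2 * (A ^ 3 + C 8 * B ^ 2) * v ^ 3))).natDegree ≤ 3 * h + 5 * c := by
              refine (dm (dnum _) (n := 3 * h + 5 * c) ?_).trans (by omega)
              apply dsb
              · apply dad
                · apply dad
                  · exact (dm (dm (dpw 2 dA) dB) (dpw 3 du)).trans (by omega)
                  · have q1 : (C 5 * A ^ 3 + C 32 * B ^ 2).natDegree ≤ 3 * c :=
                      dad ((dm (dnum _) (dpw 3 dA)).trans (by omega))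
                        ((dm (dnum _) (dpw 2 dB)).trans (by omega))
                    exact (dm (dm dA q1) (dm (dpw 2 du) dv)).trans (by omega)
                · have q1 : (C 13 * A ^ 3 + C 96 * B ^ 2).natDegree ≤ 3 * c :=
                    dad ((dm (dnum _) (dpw 3 dA)).trans (by omega))
                      ((dm (dnum _) (dpw 2 dB)).trans (by omega))
                  exact (dm (dnum _) (dm (dm dB q1) (dm du (dpw 2 dv)))).trans (by omega)
              · have q1 : (A ^ 3 + C 8 * B ^ 2).natDegree ≤ 3 * c :=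
                  dad (dpw 3 dA) ((dm (dnum _) (dpw 2 dB)).trans (by omega))
                exact (dm (dnum _) (dm (dm (dpw 2 dA) q1) (dpw 3 dv))).trans (by omega)
            exact (dm p1 dG).trans (by omega)
        omega
    have hv7 : 7 * v.natDegree ≤ 3 * h + 5 * c + M := by
      have h3 : (C 4 * (D * v ^ 7)).natDegree = D.natDegree + 7 * v.natDegree := by
        rw [natDegree_C_mul h4, natDegree_mul hD (pow_ne_zero _ hv0), natDegree_pow]
      have h5 : (C 4 * (D * v ^ 7)).natDegree ≤ 3 * h + 5 * c + M := by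
        rw [id1]
        apply dad
        · have p1 : (C 12 * (u ^ 2 * v) + C 16 * (A * v ^ 3)).natDegree ≤ 3 * h + c := by
            apply dad
            · exact (dm (dnum _) (dm (dpw 2 du) dv)).trans (by omega)
            · exact (dm (dnum _) (dm dA (dpw 3 dv))).trans (by omega)
          exact (dm p1 dF).trans (by omega)
        · have p1 : (C 20 * (A * (u * v ^ 2)) + C 108 * (B * v ^ 3) - C 12 * u ^ 3).natDegree ≤
              3 * h + c := by
            apply dsb
            · apply dad
              · exact (dm (dnum _) (dm dA (dm du (dpw 2 dv)))).trans (by omega)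
              · exact (dm (dnum _) (dm dB (dpw 3 dv))).trans (by omega)
            · exact (dm (dnum _) (dpw 3 du)).trans (by omega)
          exact (dm p1 dG).trans (by omega)
      omega
    have : 7 * h ≤ 3 * h + 5 * c + M := by
      rcases max_cases u.natDegree v.natDegree with ⟨e, -⟩ | ⟨e, -⟩
      · rw [hh, e]; rw [hh, e] at hu7; exact hu7
      · rw [hh, e]; rw [hh, e] at hv7; exact hv7
    omega
  · have dF : F.natDegree ≤ 4 * h + 2 * c := by
      rw [hF]
      apply dad
      · apply dsb
        · apply dsb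
          · exact (dpw 4 du).trans (by omega)
          · exact (dm (dm (dnum _) dA) (dm (dpw 2 du) (dpw 2 dv))).trans (by omega)
        · exact (dm (dm (dnum _) dB) (dm du (dpw 3 dv))).trans (by omega)
      · exact (dm (dpw 2 dA) (dpw 4 dv)).trans (by omega)
    have dG : G.natDegree ≤ 4 * h + 2 * c := by
      rw [hG]
      refine (dm dv (n := 3 * h + c) ?_).trans (by omega)
      apply dad
      · apply dad
        · exact (dpw 3 du).trans (by omega)
        · exact (dm dA (dm du (dpw 2 dv))).trans (by omega)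
      · exact (dm dB (dpw 3 dv)).trans (by omega)
    refine g4.trans ((max_le dF dG).trans (by omega))

end Pool.Agent.N273.PP
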